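import Pool.Agent.X32.Uni.Five

/-!
# All five consecutive odd integers `n, n + 2, (n + 4) / g, n + 6, n + 8`

If `n, n + 2, n + 6, n + 8` are primes `> 5`, the middle element `n + 4` is divisible by `15`. Here all five elements are
treated. Let `z ≥ 5`, and let `n₀` be such that `n₀ (n₀ + 2) (n₀ + 6) (n₀ + 8)` has no prime factor `≤ z` (e.g. `z = 5`,
`n₀ ≡ 11` modulo `30`); `g` denotes the `z`-smooth part of `n₀ + 4` (a multiple of `15`; it can be `15`). For any two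
positions `i ≠ j` every interval `(A, B]` with `B ≤ X`, `B - A ≥ θ X` contains at least `κ (B - A) V` integers `n ≡ n₀`
modulo `Q` (`Q` any `z`-smooth number) for which `n + 4` is divisible by `g` and, for
`(u_0, ..., u_4) = (n, n + 2, (n + 4) / g, n + 6, n + 8)`,
* all `u_l` are products of at most `t` primes, all `> X ^ (1/t)`,
* `u_i` is prime, and `u_j` is a product of at most two primes `> X ^ (1/9)`,
* every other integer `n + h`, `-L ≤ h ≤ L + 8`, has the same `z`-smooth part as `n₀ + h` times a number with a prime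
  factor in `(z, C]`.
`V` is the product of `1 - 5 / p` over the primes of `(z, X]`, the order of magnitude conjectured for the number of the `n`
for which all five `u_l` are primes. Almost all these `n` are covered by disjoint monochromatic progressions.
-/

set_option autoImplicit false

namespace Pool.Agent.Results.MP_fc51f7_nt.AllFiveOddIntegers

open Finset

/-- the `z`-smooth part of `a`: the product of the prime powers `p ^ v_p(a)`, `p ≤ z` -/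
def smooth (z : ℕ) (a : ℤ) : ℕ := ∏ p ∈ (range (z + 1)).filter Nat.Prime, p ^ a.natAbs.factorization p

/-- `v > 1` is a product of at most `r` primes, all of them larger than `y` -/
def AlmostN (r : ℕ) (y : ℝ) (v : ℕ) : Prop :=
  1 < v ∧ v.primeFactorsList.length ≤ r ∧ ∀ q : ℕ, q.Prime → q ∣ v → y < q

/-- the product of `1 - 5 / p` over the primes of `(z, X]` -/
noncomputable def V (z X : ℕ) : ℝ := ∏ p ∈ (Ioc z X).filter Nat.Prime, (1 - (5 : ℝ) / p)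

/-- the numbers `n, n + 2, (n + 4) / g, n + 6, n + 8` -/
def u (g n : ℕ) : Fin 5 → ℕ := ![n, n + 2, (n + 4) / g, n + 6, n + 8]

open Classical in
/-- the integers `n` of `(A, B]` described above -/
noncomputable def Good (L z n₀ Q : ℕ) (i j : Fin 5) (C t X A B : ℕ) : Finset ℕ :=
  (Ioc A B).filter (fun n : ℕ => n ≡ n₀ [MOD Q] ∧ smooth z ((n₀ : ℤ) + 4) ∣ n + 4 ∧
    (∀ l, AlmostN t ((X : ℝ) ^ (1 / (t : ℝ))) (u (smooth z ((n₀ : ℤ) + 4)) n l)) ∧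
    (u (smooth z ((n₀ : ℤ) + 4)) n i).Prime ∧ AlmostN 2 ((X : ℝ) ^ (1 / 9 : ℝ)) (u (smooth z ((n₀ : ℤ) + 4)) n j) ∧
    ∀ h : ℤ, -(L : ℤ) ≤ h → h ≤ L + 8 → (∀ l : Fin 5, 2 * ((l : ℕ) : ℤ) ≠ h) →
      ∃ w : ℤ, (n : ℤ) + h = smooth z ((n₀ : ℤ) + h) * w ∧ ∃ q : ℕ, q.Prime ∧ z < q ∧ q ≤ C ∧ (q : ℤ) ∣ w)

/-- the terms `a, a + b, ..., a + (s - 1) b` of the progression `τ = (a, b)` -/
def terms (s : ℕ) (τ : ℕ × ℕ) : Finset ℕ := (range s).image (fun i => τ.1 + i * τ.2)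

theorem result (L z n₀ Q : ℕ) (hz : 5 ≤ z) (hL : L < n₀) (hQ : 1 ≤ Q) (hQz : ∀ p : ℕ, p.Prime → p ∣ Q → p ≤ z)
    (hn₀ : ∀ p : ℕ, p.Prime → p ≤ z → ¬ p ∣ n₀ * (n₀ + 2) * (n₀ + 6) * (n₀ + 8)) (i j : Fin 5) (hij : i ≠ j) :
    ∃ C t : ℕ, 1 ≤ t ∧ ∃ κ : ℝ, 0 < κ ∧ ∀ (s r : ℕ) (θ δ : ℝ), 1 ≤ s → 0 < θ → 0 < δ → ∃ c X₀ : ℕ, ∀ X : ℕ, X₀ ≤ X →
      κ / Real.log X ^ 5 ≤ V z X ∧ ∀ A B : ℕ, B ≤ X → θ * X ≤ (B : ℝ) - A →
        κ * ((B : ℝ) - A) * V z X ≤ ((Good L z n₀ Q i j C t X A B).card : ℝ) ∧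
        ∀ χ : ℕ → Fin r, ∃ P : Finset (ℕ × ℕ),
          (∀ τ ∈ P, 1 ≤ τ.2 ∧ (τ.2 : ℝ) ≤ Real.log X ^ c ∧
            ∀ l < s, τ.1 + l * τ.2 ∈ Good L z n₀ Q i j C t X A B ∧ χ (τ.1 + l * τ.2) = χ τ.1) ∧
          (P : Set (ℕ × ℕ)).PairwiseDisjoint (terms s) ∧
          (((Good L z n₀ Q i j C t X A B \ P.biUnion (terms s)).card : ℕ) : ℝ) ≤ δ * ((B : ℝ) - A) * V z X :=
  Pool.Agent.X32.Uni.fiveM L z n₀ Q hz hL hQ hQz hn₀ i j hij

end Pool.Agent.Results.MP_fc51f7_nt.AllFiveOddIntegers
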