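import Pool.Agent.X55.Fam.Adm

/-!
# Four almost primes among five consecutive odd integers, at discrete logarithms

Four of the five consecutive odd integers `n`, `n + 2`, `n + 4`, `n + 6`, `n + 8`, `n ≠ 3`, can be primes only if these are
`n`, `n + 2`, `n + 6`, `n + 8`. Let `P` be a large prime and `g` a primitive root modulo `P`. We consider the exponents `n`
* for which the residue of `g ^ n` modulo `P` lies in a given interval (so that `n` is the discrete logarithm of an
  element of an interval); the exponents run over any interval of a length `H < P`, the residues over any interval of a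
  length `K ≤ P`, with `H K ≥ P ^ (3 / 2 + ε)`;
* for which `g ^ n + s` lies in a given coset of a subgroup `S` of the residues, where `|S| H ≥ P ^ (3 / 2 + ε)`;
* for which `g ^ n + s` is again a primitive root, in the intervals of a length `H` with `P ^ (1 / 2 + ε) ≤ H < P`.
Each time we give a lower bound of the right order of magnitude for the number of the `n` for which `n`, `n + 2`,
`n + 6`, `n + 8` have a bounded number of prime factors, all greater than `P ^ δ`; an upper bound of the right order of
magnitude for the number of the `n` for which all are primes; and an asymptotic formula for the number of the `n` for which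
they have no prime factor up to `y`.

The proof combines a sieve which is uniform in the removed residue classes and estimates of the multiplicative
characters over intervals and over shifted subgroups.
-/

set_option autoImplicit false

namespace Pool.Agent.Results.MP_fc51f7_nt.DiscreteLogarithms

open Finset Pool.Agent.X55.Forms

/-- the quadruplet `n`, `n + 2`, `n + 6`, `n + 8` is admissible -/
lemma adm : Admissible (![1, 1, 1, 1] : Fin 4 → ℤ) ![0, 2, 6, 8] := by
  refine admissible_of _ _ ?_ ?_
  · intro q hq hq4
    have h23 : q = 2 ∨ q = 3 := by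
      have := hq.two_le
      interval_cases q
      · exact Or.inl rfl
      · exact Or.inr rfl
      · exact absurd hq (by norm_num)
    rcases h23 with rfl | rfl
    · refine ⟨1, fun i => ?_⟩
      fin_cases i <;> simp <;> omega
    · refine ⟨2, fun i => ?_⟩
      fin_cases i <;> simp <;> omega
  · intro q hq _ i hh
    refine not_dvd_unit hq (Or.inl ?_) hh.1
    fin_cases i <;> rfl


theorem result :
    (∀ ε : ℝ, 0 < ε → ∀ B : ℕ, ∃ (r : ℕ) (δ c C : ℝ) (P₀ : ℕ), 0 < δ ∧ 0 < c ∧ 0 < C ∧
      ∀ P : ℕ, P₀ ≤ P → ∀ [Fact P.Prime],  ∀ g : ZMod P, orderOf g = P - 1 →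
      Logarithms ε P g (fun M H R X => Bounds (![1, 1, 1, 1]) (![0, 2, 6, 8]) P r δ c C B M H R X)) ∧
    -- the asymptotic formula
    (∀ ε η : ℝ, 0 < ε → 0 < η → ∃ (δ : ℝ) (P₀ : ℕ), 0 < δ ∧
      ∀ P : ℕ, P₀ ≤ P → ∀ [Fact P.Prime],  ∀ g : ZMod P, orderOf g = P - 1 →
      ∀ y : ℕ, 3 ≤ y → (y : ℝ) ≤ (P : ℝ) ^ δ →
      Logarithms ε P g (fun M H R X => Rough (![1, 1, 1, 1]) (![0, 2, 6, 8]) η y M H R X)) := by

  refine ⟨fun ε hε B => ?_, fun ε η hε hη => ?_⟩
  · obtain ⟨r, δ, c, C, P₀, hδ, hc, hC, h⟩ := logarithms (4) (by norm_num) ε hε B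
    refine ⟨r, δ, c, C, P₀, hδ, hc, hC, ?_⟩
    intro P hP _   g hg
    exact (h P hP (![1, 1, 1, 1]) (![0, 2, 6, 8]) (fun i => by fin_cases i <;> norm_num) (adm) g hg).mono fun M H R X _ hQ => hQ
  · obtain ⟨δ, P₀, hδ, h⟩ := logarithmsA (4) (by norm_num) ε η hε hη
    refine ⟨δ, P₀, hδ, ?_⟩
    intro P hP _   g hg y hy hyP
    exact (h P hP (![1, 1, 1, 1]) (![0, 2, 6, 8]) (adm) g hg y hy hyP).mono fun M H R X _ hQ => hQ

end Pool.Agent.Results.MP_fc51f7_nt.DiscreteLogarithms
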