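import Pool.Agent.X69.Ric.Pack

/-!
The quadruples `(n, n + 2, n + 6, n + 8)` without small prime factors. Limit points of the vectors of consecutive normalised gaps.
-/

set_option autoImplicit false

namespace Pool.Agent.Results.MP_fc51f7_nt.GapLimitVectors

open Filter MeasureTheory

/-- The quadruple `(n, n + 2, n + 6, n + 8)`. -/
def f (n : ℕ) : Fin 4 → ℕ := ![n, n + 2, n + 6, n + 8]

/-- `Many g A`: for some `c > 0` and all large `X`, the set `A` has at least `c X / (log X) ^ g` elements in `[1, X]`. -/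
def Many (g : ℕ) (A : Set ℕ) : Prop :=
  ∃ c : ℝ, 0 < c ∧ ∀ᶠ X : ℕ in atTop, c * X / Real.log X ^ g ≤ ((A ∩ Set.Icc 1 X).ncard : ℝ)

/-- No prime factor of a component of `f n` is less than `n ^ δ`. -/
def Rough {g : ℕ} (f : ℕ → Fin g → ℕ) (δ : ℝ) (n : ℕ) : Prop :=
  ∀ i, ∀ p : ℕ, p.Prime → p ∣ f n i → (n : ℝ) ^ δ ≤ p

/-- The `n ≥ 1` such that all the components of `f n` have at most `r` prime factors, counted with multiplicity,
none of them less than `n ^ (1 / r)`. -/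
def Almost {g : ℕ} (f : ℕ → Fin g → ℕ) (r : ℕ) : Set ℕ :=
  {n | 1 ≤ n ∧ ∀ i, ArithmeticFunction.cardFactors (f n i) ≤ r ∧
    ∀ p : ℕ, p.Prime → p ∣ f n i → (n : ℝ) ^ (1 / (r : ℝ)) ≤ p}

/-- The vector of `m` consecutive normalised gaps `(a (k+i+1) - a (k+i)) / (log a (k+i)) ^ g`, `0 ≤ i < m`, of the
set `A = {a 0 < a 1 < ...}`. -/
noncomputable def gaps (g : ℕ) (A : Set ℕ) (m k : ℕ) : Fin m → ℝ := fun i =>
  ((Nat.nth (· ∈ A) (k + i + 1) : ℝ) - Nat.nth (· ∈ A) (k + i)) / Real.log (Nat.nth (· ∈ A) (k + i)) ^ g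

/-- The set of the limit points in `ℝ ^ m` of the vectors of `m` consecutive normalised gaps of `A`. -/
def LimitVectors (g : ℕ) (A : Set ℕ) (m : ℕ) : Set (Fin m → ℝ) := {t | MapClusterPt t atTop (gaps g A m)}

theorem result :
    (∀ A : Set ℕ, ∀ δ : ℝ, 0 < δ → (∀ n ∈ A, Rough f δ n) → Many 4 A →
      ∀ m : ℕ, 1 ≤ m → 0 < volume (LimitVectors 4 A m)) ∧
    ∃ r : ℕ, 1 ≤ r ∧ Many 4 (Almost f r) ∧ ∀ m : ℕ, 1 ≤ m → 0 < volume (LimitVectors 4 (Almost f r) m) := by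
  refine Pool.Agent.X69.Ric.pack_gaps (by omega) (a := ![1, 1, 1, 1]) (b := ![0, 2, 6, 8]) (f := f) (by decide) (by decide) ?_ ?_
  · intro p hp
    have h1 : ¬ (p : ℤ) ∣ 1 := fun h => hp.one_lt.ne' (Nat.dvd_one.1 (by exact_mod_cast h))
    have h3 : p ≠ 3 → ¬ (p : ℤ) ∣ 3 := fun h5 h => h5 ((Nat.prime_dvd_prime_iff_eq hp (by norm_num)).1
      (by exact_mod_cast h))
    have h7 : p ≠ 7 → ¬ (p : ℤ) ∣ 7 := fun h5 h => h5 ((Nat.prime_dvd_prime_iff_eq hp (by norm_num)).1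
      (by exact_mod_cast h))
    have h9 : p ≠ 3 → ¬ (p : ℤ) ∣ 9 := fun h5 h => h3 h5 (by
      have h6 : (p : ℤ) ∣ 3 ^ 2 := by norm_num; exact h
      exact (Nat.prime_iff_prime_int.1 hp).dvd_of_dvd_pow h6)
    rcases eq_or_ne p 3 with rfl | hp3
    · exact ⟨2, by intro i; fin_cases i <;> norm_num⟩
    rcases eq_or_ne p 7 with rfl | hp7
    · exact ⟨2, by intro i; fin_cases i <;> norm_num⟩
    refine ⟨1, ?_⟩
    intro i
    fin_cases i
    · simpa using h1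
    · simpa using h3 hp3
    · simpa using h7 hp7
    · simpa using h9 hp3
  · intro n hn i
    fin_cases i <;> simp [f]

end Pool.Agent.Results.MP_fc51f7_nt.GapLimitVectors
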