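import Pool.Agent.X119.Dig

set_option autoImplicit false

/-!
# Five consecutive odd integers with four almost primes and a first member with restricted digits

There are `c > 0` and `r₀` such that for all `r ≥ r₀`, all bases `b` and all large `K` the following
holds for ALL choices of sets `A 0, ..., A (K - 1)` of digits with `∏ |A i| ≥ exp (- c K) b ^ K`: the
integers `n < b ^ K` whose `i`-th digit belongs to `A i` for all `i < K`, such that `n`, `n + 2`, `n + 6`
and `n + 8` have at most `r` prime factors each, all larger than `n ^ (1 / r)`, have the expected order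
`∏ |A i| / K ^ 4` (if the last digit can be chosen without a local obstruction at the base), and at most
`C ∏ |A i| / K ^ 4` of the odd integers `n` with these digits are such that at least four of the five
consecutive odd integers `n, n + 2, n + 4, n + 6, n + 8` are primes.
-/

namespace Pool.Agent.Results.MP_fc51f7_nt.PrescribedDigits

open Finset Filter
open Pool.Agent.Y816.PD (NA ND)

/-- `n`, `n + 2`, `n + 6`, `n + 8` have at most `r` prime factors each (with multiplicity), all of them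
larger than `n ^ (1 / r)`. -/
def Almost (r : ℕ) : Set ℕ :=
  {n | ∀ h ∈ ({0, 2, 6, 8} : Finset ℕ), (∀ p : ℕ, p.Prime → p ∣ n + h → (n : ℝ) ^ (1 / (r : ℝ)) < (p : ℝ)) ∧
    (n + h).primeFactorsList.length ≤ r}

/-- The odd integers `n` such that at least four of `n, n + 2, n + 4, n + 6, n + 8` are primes. -/
def Good : Set ℕ := {n | Odd n ∧ 4 ≤ (({0, 2, 4, 6, 8} : Finset ℕ).filter (fun h => (n + h).Prime)).card}

/-- no local obstruction -/
lemma adm (p : ℕ) (hp : p.Prime) : ∃ m : ℕ, ∀ h ∈ ({0, 2, 6, 8} : Finset ℕ), ¬ p ∣ m + h := by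
  rcases lt_or_ge p 30 with h30 | h30
  · refine ⟨101, fun h hh hd => ?_⟩
    simp only [mem_insert, mem_singleton] at hh
    have := (Nat.prime_dvd_prime_iff_eq hp
      (by rcases hh with rfl | rfl | rfl | rfl <;> norm_num)).1 hd
    omega
  · refine ⟨5, fun h hh hd => ?_⟩
    simp only [mem_insert, mem_singleton] at hh
    have := Nat.le_of_dvd (by omega) hd
    omega

/-- at most one member of a good set is not a prime -/
lemma two {n : ℕ} (hn : n ∈ Good) {i j : ℕ} (hi : i ∈ ({0, 2, 4, 6, 8} : Finset ℕ))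
    (hj : j ∈ ({0, 2, 4, 6, 8} : Finset ℕ)) (hij : i ≠ j) (h : ¬ (n + i).Prime) : (n + j).Prime := by
  by_contra hc
  have h1 := hn.2
  have h2 : ({0, 2, 4, 6, 8} : Finset ℕ).filter (fun h => (n + h).Prime) ⊆
      (({0, 2, 4, 6, 8} : Finset ℕ).erase i).erase j := by
    intro k hk
    rw [mem_filter] at hk
    rw [mem_erase, mem_erase]
    refine ⟨?_, ?_, hk.1⟩
    · rintro rfl
      exact hc hk.2
    · rintro rfl
      exact h hk.2
  have h3 := card_le_card h2
  have h4 : ((({0, 2, 4, 6, 8} : Finset ℕ).erase i).erase j).card = 3 := by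
    rw [card_erase_of_mem (mem_erase.2 ⟨hij.symm, hj⟩), card_erase_of_mem hi]
    rfl
  omega

lemma np {n : ℕ} (h3 : 3 ∣ n) (h : 3 < n) : ¬ n.Prime := fun hp => by
  have := (Nat.prime_dvd_prime_iff_eq Nat.prime_three hp).1 h3
  omega

/-- the quadruplets contained in a good set -/
lemma quad {n : ℕ} (hn : n ∈ Good) (h3 : n ≠ 3) : ∀ h ∈ ({0, 2, 6, 8} : Finset ℕ), (n + h).Prime := by
  have hodd := hn.1
  obtain ⟨t, ht⟩ := hodd
  have h5 : n % 3 = 2 := by
    by_contra hc
    have h6 : n % 3 = 0 ∨ n % 3 = 1 := by omega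
    rcases h6 with h6 | h6
    · have h7 : ¬ (n + 6).Prime := np (by omega) (by omega)
      have h8 := two hn (i := 6) (j := 0) (by decide) (by decide) (by decide) h7
      exact np (n := n + 0) (by omega) (by omega) h8
    · have h7 : ¬ (n + 8).Prime := np (by omega) (by omega)
      have h8 := two hn (i := 8) (j := 2) (by decide) (by decide) (by decide) h7
      have h9 := two hn (i := 8) (j := 0) (by decide) (by decide) (by decide) h7
      by_cases h10 : n = 1
      · subst h10
        exact absurd h9 (by norm_num)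
      · exact np (n := n + 2) (by omega) (by omega) h8
  have h7 : ¬ (n + 4).Prime := np (by omega) (by omega)
  intro h hh
  refine two hn (i := 4) (j := h) (by decide) ?_ ?_ h7
  · simp only [mem_insert, mem_singleton] at hh ⊢
    omega
  · rintro rfl
    simp at hh

lemma good_rough {r n : ℕ} (hr : 2 ≤ r) (hn : n ∈ Good) (h : ℕ) (hh : h ∈ ({0, 2, 6, 8} : Finset ℕ))
    (p : ℕ) (hp : p.Prime) (hd : p ∣ n + h) : (n : ℝ) ^ (1 / (r : ℝ)) < (p : ℝ) := by
  by_cases h3 : n = 3
  · subst h3
    have hp3 : 3 ≤ p := by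
      by_contra hc
      have h2 := hp.two_le
      have h4 : p = 2 := by omega
      subst h4
      simp only [mem_insert, mem_singleton] at hh
      rcases hh with rfl | rfl | rfl | rfl <;> omega
    exact Pool.Agent.TH977.PW.rpow_lt_of_le r 3 p hr (by norm_num) hp3
  · have h4 := quad hn h3
    exact Pool.Agent.X119.Dig.prime_rough hr (h4 0 (by decide)).two_le (h4 h hh) (Nat.le_add_right _ _) hp hd

/-- **Restricted digits.** -/
theorem result :
    ∃ c : ℝ, 0 < c ∧ ∃ r₀ : ℕ, 2 ≤ r₀ ∧ ∀ r : ℕ, r₀ ≤ r → ∀ b : ℕ, 2 ≤ b → ∃ κ C : ℝ, 0 < κ ∧ 0 < C ∧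
      ∀ᶠ K : ℕ in atTop, ∀ A : ℕ → Finset ℕ, (∀ i < K, A i ⊆ range b) →
        (b : ℝ) ^ K ≤ Real.exp (c * K) * NA K A →
        ((∃ d ∈ A 0, ∀ h ∈ ({0, 2, 6, 8} : Finset ℕ), (d + h).Coprime b) →
          κ * NA K A / (K : ℝ) ^ 4 ≤ ND b K A (Almost r)) ∧
        (ND b K A Good : ℝ) ≤ C * NA K A / (K : ℝ) ^ 4 := by
  obtain ⟨c, hc, r₀, hr₀, h⟩ := Pool.Agent.Y816.PD.digits_tuple {0, 2, 6, 8} adm 4 rfl
  refine ⟨c, hc, r₀, hr₀, fun r hr b hb => ?_⟩
  obtain ⟨κ, C, hκ, hC, h1⟩ := h r hr b hb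
  refine ⟨κ, C, hκ, hC, ?_⟩
  filter_upwards [h1] with K hK A hA hprod
  obtain ⟨h2, h3⟩ := hK A hA hprod
  refine ⟨h2, (Pool.Agent.X119.Dig.nd_mono b K A ?_).trans h3⟩
  intro n hn h hh p hp hd
  exact good_rough (hr₀.trans hr) hn h hh p hp hd

end Pool.Agent.Results.MP_fc51f7_nt.PrescribedDigits
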